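import Pool.Agent.helper84.TEX.Spec

/-! # A+ (MP_3703a7_ag), block EX: row XTR (the stabiliser of one root) -/

namespace Pool.Agent.TEX

open Pool.Agent.TC Pool.Agent.TN Polynomial

noncomputable section

theorem XTR_norm {s : ℕ} [Fact s.Prime] (x : ℤ_[s]) : ‖x‖ < 1 ↔ PadicInt.toZMod x = 0 := by
  rw [← RingHom.mem_ker, PadicInt.ker_toZMod, IsLocalRing.mem_maximalIdeal, PadicInt.mem_nonunits]

theorem XTR_red {s : ℕ} [Fact s.Prime] (P : Polynomial ℤ) (x : ℤ_[s]) :
    PadicInt.toZMod (aeval x P) = (P.map (Int.castRingHom (ZMod s))).eval (PadicInt.toZMod x) := by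
  have h : (PadicInt.toZMod (p := s)).comp (algebraMap ℤ ℤ_[s]) = Int.castRingHom (ZMod s) :=
    RingHom.ext_int _ _
  rw [aeval_def, hom_eval₂, eval_map, h]

theorem XTR_monic {n : ℕ} (f : Fin (n + 1) → ℤ) : (pol f).Monic ∧ (pol f).natDegree = n + 1 := by
  have h := degree_sum_fin_lt f
  refine ⟨monic_X_pow_add h, ?_⟩
  unfold pol
  rw [natDegree_add_eq_left_of_degree_lt, natDegree_X_pow]
  rw [degree_X_pow]
  exact h

theorem XTR_rt {n : ℕ} (f : Fin (n + 1) → ℤ) (a : Fin (n + 1) → Qb) (ha : Rts f a) (j : Fin (n + 1))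
    {L : Type*} [Field L] (ψ : Qb →+* L) : ((pol f).map (Int.castRingHom L)).eval (ψ (a j)) = 0 := by
  have h1 : ((pol f).map (Int.castRingHom L)).eval (ψ (a j)) =
      ψ (a j ^ (n + 1) + ∑ k, (f k : Qb) * a j ^ (k : ℕ)) := by
    unfold pol
    simp [Polynomial.map_sum, eval_finsetSum]
  rw [h1, ha j, map_zero]

theorem XTR (hXPB : XPB_stmt) : XTR_stmt := by
  intro n f a s hn hs hC ha hinj
  have hF : Fact s.Prime := ⟨hs⟩
  obtain ⟨g, hg, hfg⟩ := hC
  obtain ⟨hm, hd⟩ := XTR_monic f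
  have hA : @Algebra.IsAlgebraic ℚ Qb _ _ DivisionRing.toRatAlgebra := AlgebraicClosure.isAlgebraic ℚ
  have ψ : Qb →+* Om s := ((IsAlgClosed.lift : Qb →ₐ[ℚ] Om s) : Qb →+* Om s)
  have hmd : ((pol f).map (Int.castRingHom (ZMod s))).natDegree = n + 1 := by
    rw [hm.natDegree_map, hd]
  have hgd : g.natDegree = n := by
    rw [hfg, natDegree_X_mul hg.ne_zero] at hmd
    omega
  have hg0 : g.eval 0 ≠ 0 := by
    intro h
    have h1 : (X : (ZMod s)[X]) ∣ g := by
      rw [X_dvd_iff, coeff_zero_eq_eval_zero, h]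
    have h2 := (irreducible_X (R := ZMod s)).natDegree_pos
    obtain ⟨q, hq⟩ := h1
    rcases hg.isUnit_or_isUnit hq with h3 | h3
    · exact (irreducible_X (R := ZMod s)).not_isUnit h3
    · rw [hq, natDegree_X_mul h3.ne_zero, natDegree_eq_zero_of_isUnit h3] at hgd
      omega
  -- Hensel
  have h0 : ‖aeval (0 : ℤ_[s]) (pol f)‖ < 1 := by
    rw [XTR_norm, XTR_red, map_zero, hfg]
    simp
  have h1 : ‖aeval (0 : ℤ_[s]) (derivative (pol f))‖ = 1 := by
    have h2 : ¬ ‖aeval (0 : ℤ_[s]) (derivative (pol f))‖ < 1 := by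
      rw [XTR_norm, XTR_red, map_zero, ← derivative_map, hfg]
      simpa using hg0
    exact le_antisymm (PadicInt.norm_le_one _) (not_lt.1 h2)
  obtain ⟨α, hα, hα1, -, -⟩ := hensels_lemma (F := pol f) (a := (0 : ℤ_[s])) (by rw [h1]; simpa using h0)
  rw [h1, sub_zero] at hα1
  have hα0 : PadicInt.toZMod α = 0 := (XTR_norm α).1 hα1
  set F : (ℤ_[s])[X] := (pol f).map (Int.castRingHom ℤ_[s]) with hFdef
  have hFm : F.Monic := hm.map _
  have hFα : F.IsRoot α := by
    rw [IsRoot.def, hFdef, eval_map]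
    exact hα
  obtain ⟨G, hG⟩ := dvd_iff_isRoot.2 hFα
  have hGm : G.Monic := (monic_X_sub_C α).of_mul_monic_left (by rw [← hG]; exact hFm)
  have hGg : G.map (PadicInt.toZMod (p := s)) = g := by
    have e1 : F.map (PadicInt.toZMod (p := s)) = X * g := by
      rw [hFdef, Polynomial.map_map, ← hfg]
      congr 1
      exact RingHom.ext_int _ _
    rw [hG, Polynomial.map_mul, Polynomial.map_sub, map_X, map_C, hα0, C_0, sub_zero] at e1
    exact mul_left_cancel₀ X_ne_zero e1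
  have hGi : Irreducible G := hGm.irreducible_of_irreducible_map (PadicInt.toZMod (p := s)) G (by rw [hGg]; exact hg)
  have hGQ : Irreducible (G.map (algebraMap ℤ_[s] ℚ_[s])) :=
    (hGm.irreducible_iff_irreducible_map_fraction_map (K := ℚ_[s])).1 hGi
  set GQ : (ℚ_[s])[X] := G.map (algebraMap ℤ_[s] ℚ_[s]) with hGQdef
  have hGQm : GQ.Monic := hGm.map _
  have hGd : G.natDegree = n := by
    rw [← hGm.natDegree_map (PadicInt.toZMod (p := s)), hGg, hgd]
  set β : Om s := algebraMap ℚ_[s] (Om s) (α : ℚ_[s]) with hβ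
  -- the roots
  have key : ∀ j, (ψ (a j) - β) * aeval (ψ (a j)) GQ = 0 := by
    intro j
    have e2 := XTR_rt f a ha j ψ
    have e3 : (pol f).map (Int.castRingHom (Om s)) =
        (F.map (algebraMap ℤ_[s] ℚ_[s])).map (algebraMap ℚ_[s] (Om s)) := by
      rw [hFdef, Polynomial.map_map, Polynomial.map_map]
      congr 1
    rw [e3, hG, Polynomial.map_mul, Polynomial.map_mul, eval_mul, Polynomial.map_sub, Polynomial.map_sub,
      map_X, map_X, map_C, map_C, eval_sub, eval_X, eval_C] at e2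
    rw [aeval_def, ← eval_map]
    exact e2
  have hex : ∃ j₀, ψ (a j₀) = β := by
    by_contra hno
    push Not at hno
    have e4 : ∀ j, (GQ.map (algebraMap ℚ_[s] (Om s))).eval (ψ (a j)) = 0 := by
      intro j
      have := (mul_eq_zero.1 (key j)).resolve_left (sub_ne_zero.2 (hno j))
      rwa [aeval_def, ← eval_map] at this
    have e5 := Polynomial.eq_zero_of_natDegree_lt_card_of_eval_eq_zero (GQ.map (algebraMap ℚ_[s] (Om s)))
      (f := fun j => ψ (a j)) (ψ.injective.comp hinj) e4 (by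
        rw [natDegree_map, hGQdef, hGm.natDegree_map, hGd, Fintype.card_fin]
        omega)
    exact (hGQm.map _).ne_zero e5
  obtain ⟨j₀, hj₀⟩ := hex
  refine ⟨j₀, fun j j' hj hj' => ?_⟩
  have hmin : ∀ i, i ≠ j₀ → minpoly ℚ_[s] (ψ (a i)) = GQ := by
    intro i hi
    have e6 : ψ (a i) - β ≠ 0 := by
      rw [sub_ne_zero, ← hj₀]
      exact fun e => hi (hinj (ψ.injective e))
    have e7 := (mul_eq_zero.1 (key i)).resolve_left e6
    exact (minpoly.eq_of_irreducible_of_monic hGQ e7 hGQm).symm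
  have hconj : IsConjRoot ℚ_[s] (ψ (a j')) (ψ (a j)) := by
    unfold IsConjRoot
    rw [hmin j hj, hmin j' hj']
  obtain ⟨τ, hτ⟩ := isConjRoot_iff_exists_algEquiv.1 hconj
  obtain ⟨σ, hσ⟩ := hXPB s ψ τ
  refine ⟨σ, ?_, ?_⟩
  · apply ψ.injective
    rw [hσ, hj₀, hβ, τ.commutes]
  · apply ψ.injective
    rw [hσ, hτ]

end

end Pool.Agent.TEX
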